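import Pool.Agent.H29.HMF.Stmts

/-!
# Row SHT of the board `hmf`: a compact flat of small area has a short element of `Lam`
-/

set_option autoImplicit false

open Matrix MeasureTheory

namespace Pool.HMF

namespace H53SHT

lemma det_dg (x : ℝ) : (dg x).det = 1 := by
  unfold dg
  rw [det_diagonal, Fin.prod_univ_two]
  show Real.exp x * Real.exp (-x) = 1
  rw [← Real.exp_add, add_neg_cancel, Real.exp_zero]

/-- `dg` as an element of `SL_2(ℝ)` -/
noncomputable def D (x : ℝ) : S2 := ⟨dg x, det_dg x⟩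

lemma dg_zero : dg 0 = 1 := by
  unfold dg
  rw [neg_zero, Real.exp_zero]
  ext i j
  fin_cases i <;> fin_cases j <;> simp

lemma diag_of {Q κ : S2} {t t' : ℝ} (h01 : Q.1 0 1 = 0) (h10 : Q.1 1 0 = 0)
    (hκ : κ.1 * κ.1ᵀ = 1) (h : Q.1 * dg t = dg t' * κ.1) :
    ∃ ε : ℝ, ε ^ 2 = 1 ∧ Q.1 = ε • dg (t' - t) := by
  have e : ∀ i j, Q.1 i j * (![Real.exp t, Real.exp (-t)] : Fin 2 → ℝ) j =
      (![Real.exp t', Real.exp (-t')] : Fin 2 → ℝ) i * κ.1 i j := by
    intro i j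
    have h1 := congrFun (congrFun h i) j
    unfold dg at h1
    rwa [Matrix.mul_diagonal, Matrix.diagonal_mul] at h1
  have e00 : Q.1 0 0 * Real.exp t = Real.exp t' * κ.1 0 0 := e 0 0
  have e01 : Q.1 0 1 * Real.exp (-t) = Real.exp t' * κ.1 0 1 := e 0 1
  have e10 : Q.1 1 0 * Real.exp t = Real.exp (-t') * κ.1 1 0 := e 1 0
  have e11 : Q.1 1 1 * Real.exp (-t) = Real.exp (-t') * κ.1 1 1 := e 1 1
  have k01 : κ.1 0 1 = 0 := by
    rw [h01, zero_mul] at e01
    rcases mul_eq_zero.1 e01.symm with h | h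
    · exact absurd h (Real.exp_ne_zero _)
    · exact h
  have k10 : κ.1 1 0 = 0 := by
    rw [h10, zero_mul] at e10
    rcases mul_eq_zero.1 e10.symm with h | h
    · exact absurd h (Real.exp_ne_zero _)
    · exact h
  have hdet : κ.1 0 0 * κ.1 1 1 = 1 := by
    have h1 := κ.2
    rw [Matrix.det_fin_two, k01, k10] at h1
    linarith
  have hsq : κ.1 0 0 ^ 2 = 1 := by
    have h1 := congrFun (congrFun hκ 0) 0
    rw [Matrix.mul_apply, Fin.sum_univ_two, Matrix.transpose_apply, Matrix.transpose_apply, k01,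
      Matrix.one_apply_eq] at h1
    linarith
  have h11 : κ.1 1 1 = κ.1 0 0 := by
    have h1 : κ.1 1 1 = κ.1 0 0 ^ 2 * κ.1 1 1 := by rw [hsq, one_mul]
    rw [h1]
    linear_combination (κ.1 0 0) * hdet
  have q00 : Q.1 0 0 = κ.1 0 0 * Real.exp (t' - t) := by
    rw [Real.exp_sub]
    field_simp
    linarith
  have q11 : Q.1 1 1 = κ.1 0 0 * Real.exp (-(t' - t)) := by
    have h2 : Real.exp (-(t' - t)) = Real.exp (-t') * Real.exp t := by
      rw [← Real.exp_add]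
      congr 1
      ring
    have h3 : Real.exp (-t) * Real.exp t = 1 := by
      rw [← Real.exp_add, neg_add_cancel, Real.exp_zero]
    rw [h2]
    rw [h11] at e11
    linear_combination (Real.exp t) * e11 - Q.1 1 1 * h3
  refine ⟨κ.1 0 0, hsq, ?_⟩
  ext i j
  rw [Matrix.smul_apply]
  unfold dg
  fin_cases i <;> fin_cases j
  · simpa using q00
  · simpa using h01
  · simpa using h10
  · simpa using q11

lemma mon_quot {M M' : S2} {p : Bool} (h : Mon p M.1) (h' : Mon p M'.1) :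
    (M' * M⁻¹).1 0 1 = 0 ∧ (M' * M⁻¹).1 1 0 = 0 := by
  have e : (M' * M⁻¹).1 = M'.1 * M.1.adjugate := by
    show ((M' * M⁻¹ : S2) : Matrix (Fin 2) (Fin 2) ℝ) = _
    rw [Matrix.SpecialLinearGroup.coe_mul, Matrix.SpecialLinearGroup.coe_inv]
  rw [e, Matrix.adjugate_fin_two]
  rw [Matrix.mul_apply, Matrix.mul_apply, Fin.sum_univ_two, Fin.sum_univ_two]
  rcases h with ⟨hp, h1, h2⟩ | ⟨hp, h1, h2⟩
  · rcases h' with ⟨hp', h1', h2'⟩ | ⟨hp', h1', h2'⟩
    · simp [h1, h2, h1', h2']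
    · rw [hp] at hp'
      exact absurd hp' (by simp)
  · rcases h' with ⟨hp', h1', h2'⟩ | ⟨hp', h1', h2'⟩
    · rw [hp] at hp'
      exact absurd hp' (by simp)
    · simp [h1, h2, h1', h2']

instance : Countable (ℤ√2) := by
  have h : Function.Injective (fun z : ℤ√2 => (z.re, z.im)) := by
    intro a b hab
    have h1 := congrArg Prod.fst hab
    have h2 := congrArg Prod.snd hab
    exact Zsqrtd.ext h1 h2
  exact h.countable

instance : Countable HM := by
  have h : Function.Injective (fun (γ : HM) (i j : Fin 2) => γ.1 i j) := by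
    intro a b hab
    apply Subtype.ext
    ext1 i j
    exact congrFun (congrFun hab i) j
  exact h.countable

lemma sg_sq (p : Bool) : sg p * sg p = 1 := by
  cases p <;> simp [sg]

lemma sg_abs (p : Bool) : |sg p| = 1 := by
  cases p <;> simp [sg]

lemma mp_coord (p : Bool) (t : ℝ) :
    MeasurePreserving (fun x : ℝ => sg p * x + t) volume volume := by
  cases p
  · have h : (fun x : ℝ => sg false * x + t) = fun x => x + t := by
      funext x
      simp [sg]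
    rw [h]
    exact measurePreserving_add_right volume t
  · have h : (fun x : ℝ => sg true * x + t) = (fun x => x + t) ∘ Neg.neg := by
      funext x
      simp [sg]
    rw [h]
    exact (measurePreserving_add_right volume t).comp (Measure.measurePreserving_neg volume)

lemma mp_pi (p : Fin 2 → Bool) (t : Fin 2 → ℝ) :
    MeasurePreserving (fun (v : Fin 2 → ℝ) i => sg (p i) * v i + t i) volume volume :=
  volume_preserving_pi (fun i => mp_coord (p i) (t i))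

/-- the box around `t` -/
def Box (p : Fin 2 → Bool) (ρ : ℝ) (t : Fin 2 → ℝ) : Set (Fin 2 → ℝ) :=
  (fun (b : Fin 2 → ℝ) i => sg (p i) * (b i - t i)) ⁻¹' Set.Icc 0 (fun _ => ρ)

lemma box_meas (p : Fin 2 → Bool) (ρ : ℝ) (t : Fin 2 → ℝ) : MeasurableSet (Box p ρ t) :=
  (isClosed_Icc.preimage (by fun_prop)).measurableSet

lemma meas_part (p : Fin 2 → Bool) (Dp : Set (Fin 2 → ℝ)) (hD : Dp.Countable)
    (B : Set (Fin 2 → ℝ)) (hB : MeasurableSet B) (ρ : ℝ)
    (hsep : ∀ t ∈ Dp, ∀ t' ∈ Dp, (∀ i, |t' i - t i| ≤ ρ) → t = t') :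
    volume (⋃ t ∈ Dp, {v : Fin 2 → ℝ | v ∈ Set.Icc (0 : Fin 2 → ℝ) (fun _ => ρ) ∧
      (fun i => sg (p i) * v i + t i) ∈ B}) ≤ volume B := by
  have hset : ∀ t : Fin 2 → ℝ, {v : Fin 2 → ℝ | v ∈ Set.Icc (0 : Fin 2 → ℝ) (fun _ => ρ) ∧
      (fun i => sg (p i) * v i + t i) ∈ B} =
      (fun (v : Fin 2 → ℝ) i => sg (p i) * v i + t i) ⁻¹' (B ∩ Box p ρ t) := by
    intro t
    ext v
    have h1 : (fun i => sg (p i) * ((sg (p i) * v i + t i) - t i)) = v := by
      funext i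
      linear_combination (v i) * sg_sq (p i)
    constructor
    · rintro ⟨hv, hb⟩
      refine ⟨hb, ?_⟩
      show (fun i => sg (p i) * ((sg (p i) * v i + t i) - t i)) ∈ Set.Icc (0 : Fin 2 → ℝ) (fun _ => ρ)
      rw [h1]
      exact hv
    · rintro ⟨hb, hv⟩
      have hv' : (fun i => sg (p i) * ((sg (p i) * v i + t i) - t i)) ∈
        Set.Icc (0 : Fin 2 → ℝ) (fun _ => ρ) := hv
      rw [h1] at hv'
      exact ⟨hv', hb⟩
  have hdis : Dp.PairwiseDisjoint (fun t => B ∩ Box p ρ t) := by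
    intro t ht t' ht' hne
    show Disjoint (B ∩ Box p ρ t) (B ∩ Box p ρ t')
    rw [Set.disjoint_left]
    rintro b ⟨-, hb⟩ ⟨-, hb'⟩
    apply hne
    apply hsep t ht t' ht'
    intro i
    have a1 : 0 ≤ sg (p i) * (b i - t i) := hb.1 i
    have a2 : sg (p i) * (b i - t i) ≤ ρ := hb.2 i
    have a3 : 0 ≤ sg (p i) * (b i - t' i) := hb'.1 i
    have a4 : sg (p i) * (b i - t' i) ≤ ρ := hb'.2 i
    have a5 : |t' i - t i| = |sg (p i) * (b i - t i) - sg (p i) * (b i - t' i)| := by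
      have : sg (p i) * (b i - t i) - sg (p i) * (b i - t' i) = sg (p i) * (t' i - t i) := by ring
      rw [this, abs_mul, sg_abs, one_mul]
    rw [a5, abs_le]
    constructor <;> linarith
  calc volume (⋃ t ∈ Dp, {v : Fin 2 → ℝ | v ∈ Set.Icc (0 : Fin 2 → ℝ) (fun _ => ρ) ∧
      (fun i => sg (p i) * v i + t i) ∈ B})
      ≤ ∑' t : Dp, volume {v : Fin 2 → ℝ | v ∈ Set.Icc (0 : Fin 2 → ℝ) (fun _ => ρ) ∧
      (fun i => sg (p i) * v i + (t : Fin 2 → ℝ) i) ∈ B} := measure_biUnion_le volume hD _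
    _ = ∑' t : Dp, volume (B ∩ Box p ρ t) := by
        refine tsum_congr (fun t => ?_)
        rw [hset t]
        exact (mp_pi p t).measure_preimage (hB.inter (box_meas p ρ t)).nullMeasurableSet
    _ = volume (⋃ t ∈ Dp, B ∩ Box p ρ t) :=
        (measure_biUnion hD hdis (fun t _ => hB.inter (box_meas p ρ t))).symm
    _ ≤ volume B := measure_mono (Set.iUnion₂_subset fun t _ => Set.inter_subset_left)

end H53SHT

open H53SHT

theorem sht_thm (hA : BASS) (hDA : DATS) (hM : MN2S) (_hS : SB2S) : SHTS := by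
  intro g B T hT hB hvB hfl
  obtain ⟨-, -, -, hem1, -, -, -, -, hcmul, hcdet, -, -, -⟩ := hA
  by_contra hcon
  push Not at hcon
  set ρ : ℝ := 2 * √T + 1 with hρ
  have hsT : 0 ≤ √T := Real.sqrt_nonneg T
  have hρ0 : 0 ≤ ρ := by linarith
  have hdet : ∀ (i : Fin 2) (γ : HM), (cm i γ.1).det = 1 := by
    intro i γ
    rw [hcdet, γ.2, hem1]
  let cs : Fin 2 → HM →* S2 := fun i => MonoidHom.mk' (fun γ => ⟨cm i γ.1, hdet i γ⟩) (by
    intro a b
    apply Subtype.ext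
    exact hcmul i a.1 b.1)
  have hcs : ∀ i γ, (cs i γ).1 = cm i γ.1 := fun _ _ => rfl
  let N : HM → Fin 2 → S2 := fun γ i => (g i)⁻¹ * (cs i γ)⁻¹ * g i
  -- the relation
  have hrel : ∀ v : Fin 2 → ℝ, ∃ γ : HM, ∃ b ∈ B, ∀ i, ∃ k : S2, k.1 * k.1ᵀ = 1 ∧
      (N γ i).1 * dg (v i) = dg (b i) * k.1 := by
    intro v
    have h1 : (fun i => g i * D (v i)) ∈ fl g := by
      refine ⟨1, v, trivial, fun i => ⟨1, ?_, ?_⟩⟩
      · show (1 : Matrix (Fin 2) (Fin 2) ℝ) * (1 : Matrix (Fin 2) (Fin 2) ℝ)ᵀ = 1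
        rw [Matrix.transpose_one, mul_one]
      · have h2 : cm i (1 : HM).1 = 1 := congrArg Subtype.val (map_one (cs i))
        rw [h2]
        show (g i).1 * dg (v i) = 1 * (g i).1 * dg (v i) * (1 : Matrix (Fin 2) (Fin 2) ℝ)
        rw [one_mul, mul_one]
    rw [hfl] at h1
    obtain ⟨γ, b, hb, h⟩ := h1
    refine ⟨γ, b, hb, fun i => ?_⟩
    obtain ⟨k, hk, he⟩ := h i
    refine ⟨k, hk, ?_⟩
    have h3 : g i * D (v i) = cs i γ * g i * D (b i) * k := Subtype.ext he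
    have h4 : N γ i * D (v i) = D (b i) * k := by
      show (g i)⁻¹ * (cs i γ)⁻¹ * g i * D (v i) = D (b i) * k
      rw [mul_assoc ((g i)⁻¹ * (cs i γ)⁻¹), h3]
      group
    exact congrArg Subtype.val h4
  -- the bad set
  let X : S2 → Set ℝ := fun M => {x | ∃ (y : ℝ) (k : S2), k.1 * k.1ᵀ = 1 ∧ M.1 * dg x = dg y * k.1}
  let Z : Set (Fin 2 → ℝ) := ⋃ γ : HM, ⋃ i : Fin 2,
    {v | ¬ Mon false (N γ i).1 ∧ ¬ Mon true (N γ i).1 ∧ v i ∈ X (N γ i)}
  have hZ : volume Z = 0 := by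
    refine measure_iUnion_null (fun γ => measure_iUnion_null (fun i => ?_))
    by_cases hne : ∃ v : Fin 2 → ℝ, ¬ Mon false (N γ i).1 ∧ ¬ Mon true (N γ i).1 ∧
        v i ∈ X (N γ i)
    · obtain ⟨v0, hb1, hb2, y0, k0, hk0, h0⟩ := hne
      refine measure_mono_null (t := {v : Fin 2 → ℝ | v i = v0 i}) ?_ ?_
      · rintro v ⟨-, -, y, k, hk, h⟩
        exact hM (N γ i) hb1 hb2 _ _ _ _ k k0 hk hk0 h h0
      · rw [volume_pi]
        exact Measure.pi_hyperplane (α := fun _ : Fin 2 => ℝ) (fun _ => volume) i (v0 i)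
    · have : {v : Fin 2 → ℝ | ¬ Mon false (N γ i).1 ∧ ¬ Mon true (N γ i).1 ∧
          v i ∈ X (N γ i)} = ∅ := by
        rw [Set.eq_empty_iff_forall_notMem]
        intro v hv
        exact hne ⟨v, hv⟩
      rw [this]
      exact measure_empty
  -- the data
  let Dp : (Fin 2 → Bool) → Set (Fin 2 → ℝ) := fun p => {t | ∃ γ : HM, ∀ i,
    Mon (p i) (N γ i).1 ∧ (∀ x : ℝ, ∃ k : S2, k.1 * k.1ᵀ = 1 ∧
      (N γ i).1 * dg x = dg (sg (p i) * x + t i) * k.1) ∧
    (∀ (x y : ℝ) (k : S2), k.1 * k.1ᵀ = 1 → (N γ i).1 * dg x = dg y * k.1 →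
      y = sg (p i) * x + t i)}
  have hDc : ∀ p, (Dp p).Countable := by
    intro p
    have h1 : Dp p = ⋃ γ : HM, {t | ∀ i,
        Mon (p i) (N γ i).1 ∧ (∀ x : ℝ, ∃ k : S2, k.1 * k.1ᵀ = 1 ∧
          (N γ i).1 * dg x = dg (sg (p i) * x + t i) * k.1) ∧
        (∀ (x y : ℝ) (k : S2), k.1 * k.1ᵀ = 1 → (N γ i).1 * dg x = dg y * k.1 →
          y = sg (p i) * x + t i)} := by
      ext t
      rw [Set.mem_iUnion]
      rfl
    rw [h1]
    refine Set.countable_iUnion (fun γ => Set.Subsingleton.countable ?_)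
    intro t ht t' ht'
    funext i
    obtain ⟨k, hk, h2⟩ := (ht i).2.1 0
    have h3 := (ht' i).2.2 0 _ k hk h2
    linarith
  have hcov : ∀ v : Fin 2 → ℝ, v ∈ Z ∨ ∃ p, ∃ t ∈ Dp p,
      (fun i => sg (p i) * v i + t i) ∈ B := by
    intro v
    obtain ⟨γ, b, hb, h⟩ := hrel v
    by_cases hbad : ∃ i, ¬ Mon false (N γ i).1 ∧ ¬ Mon true (N γ i).1
    · left
      obtain ⟨i, h1, h2⟩ := hbad
      refine Set.mem_iUnion.2 ⟨γ, Set.mem_iUnion.2 ⟨i, h1, h2, ?_⟩⟩
      obtain ⟨k, hk, h3⟩ := h i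
      exact ⟨b i, k, hk, h3⟩
    · right
      push Not at hbad
      have hp : ∀ i, ∃ p : Bool, Mon p (N γ i).1 := by
        intro i
        by_cases h1 : Mon false (N γ i).1
        · exact ⟨false, h1⟩
        · exact ⟨true, hbad i h1⟩
      choose p hp using hp
      have ht : ∀ i, ∃ t : ℝ, (∀ x : ℝ, ∃ k : S2, k.1 * k.1ᵀ = 1 ∧
          (N γ i).1 * dg x = dg (sg (p i) * x + t) * k.1) ∧
          (∀ (x y : ℝ) (k : S2), k.1 * k.1ᵀ = 1 → (N γ i).1 * dg x = dg y * k.1 →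
            y = sg (p i) * x + t) := fun i => hDA (N γ i) (p i) (hp i)
      choose t ht using ht
      refine ⟨p, t, ⟨γ, fun i => ⟨hp i, ht i⟩⟩, ?_⟩
      have hbe : (fun i => sg (p i) * v i + t i) = b := by
        funext i
        obtain ⟨k, hk, h3⟩ := h i
        exact ((ht i).2 (v i) (b i) k hk h3).symm
      rw [hbe]
      exact hb
  -- separation
  have hsep : ∀ p, ∀ t ∈ Dp p, ∀ t' ∈ Dp p, (∀ i, |t' i - t i| ≤ ρ) → t = t' := by
    intro p t ht t' ht' hle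
    obtain ⟨γ, hγ⟩ := ht
    obtain ⟨γ', hγ'⟩ := ht'
    by_contra hne
    have hne' : t' - t ≠ 0 := fun h => hne (sub_eq_zero.1 h).symm
    have hLam : t' - t ∈ Lam g := by
      have hQ : ∀ i, ∃ ε : ℝ, ε ^ 2 = 1 ∧ (N γ' i * (N γ i)⁻¹).1 = ε • dg (t' i - t i) := by
        intro i
        obtain ⟨h1, h2, -⟩ := hγ i
        obtain ⟨h1', h2', -⟩ := hγ' i
        obtain ⟨q1, q2⟩ := mon_quot h1 h1'
        obtain ⟨k, hk, e1⟩ := h2 0
        obtain ⟨k', hk', e2⟩ := h2' 0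
        have e3 : N γ i * D 0 = D (sg (p i) * 0 + t i) * k := Subtype.ext e1
        have e4 : N γ' i * D 0 = D (sg (p i) * 0 + t' i) * k' := Subtype.ext e2
        have hD0 : D 0 = 1 := Subtype.ext dg_zero
        rw [hD0, mul_one, mul_zero, zero_add] at e3 e4
        have e5 : (N γ' i * (N γ i)⁻¹) * D (t i) = D (t' i) * (k' * k⁻¹) := by
          rw [e3, e4]
          group
        refine diag_of (κ := k' * k⁻¹) q1 q2 ?_ (congrArg Subtype.val e5)
        have hkt : k⁻¹.1 = k.1ᵀ := by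
          have h5 : k.1 * k⁻¹.1 = 1 := congrArg Subtype.val (mul_inv_cancel k)
          have h6 : k⁻¹.1 * k.1 = 1 := congrArg Subtype.val (inv_mul_cancel k)
          calc k⁻¹.1 = k⁻¹.1 * (k.1 * k.1ᵀ) := by rw [hk, mul_one]
            _ = (k⁻¹.1 * k.1) * k.1ᵀ := by rw [mul_assoc]
            _ = k.1ᵀ := by rw [h6, one_mul]
        have hkk : k.1ᵀ * k.1 = 1 := by
          rw [← hkt]
          exact congrArg Subtype.val (inv_mul_cancel k)
        show (k'.1 * k⁻¹.1) * (k'.1 * k⁻¹.1)ᵀ = 1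
        rw [hkt, Matrix.transpose_mul, Matrix.transpose_transpose, mul_assoc, ← mul_assoc k.1ᵀ,
          hkk, one_mul, hk']
      choose ε hε1 hε2 using hQ
      refine ⟨γ'⁻¹ * γ, ε, fun i => ⟨hε1 i, ?_⟩⟩
      have h7 : cs i (γ'⁻¹ * γ) * g i = g i * (N γ' i * (N γ i)⁻¹) := by
        rw [map_mul, map_inv]
        show (cs i γ')⁻¹ * cs i γ * g i = g i * (((g i)⁻¹ * (cs i γ')⁻¹ * g i) *
          ((g i)⁻¹ * (cs i γ)⁻¹ * g i)⁻¹)
        group
      have h8 := congrArg Subtype.val h7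
      have h9 : cm i (γ'⁻¹ * γ).1 * (g i).1 = (g i).1 * (N γ' i * (N γ i)⁻¹).1 := h8
      rw [h9, hε2 i]
      rfl
    obtain ⟨i, hi⟩ := hcon (t' - t) hLam hne'
    have := hle i
    rw [Pi.sub_apply] at hi
    linarith
  -- the measure
  have hU : Set.Icc (0 : Fin 2 → ℝ) (fun _ => ρ) ⊆ Z ∪ ⋃ p : Fin 2 → Bool, ⋃ t ∈ Dp p,
      {v : Fin 2 → ℝ | v ∈ Set.Icc (0 : Fin 2 → ℝ) (fun _ => ρ) ∧
        (fun i => sg (p i) * v i + t i) ∈ B} := by
    intro v hv
    rcases hcov v with h | ⟨p, t, ht, hb⟩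
    · exact Or.inl h
    · exact Or.inr (Set.mem_iUnion.2 ⟨p, Set.mem_iUnion₂.2 ⟨t, ht, hv, hb⟩⟩)
  have hm : volume (Set.Icc (0 : Fin 2 → ℝ) (fun _ => ρ)) ≤ 4 * volume B := by
    calc volume (Set.Icc (0 : Fin 2 → ℝ) (fun _ => ρ)) ≤ volume (Z ∪ ⋃ p : Fin 2 → Bool,
        ⋃ t ∈ Dp p, {v : Fin 2 → ℝ | v ∈ Set.Icc (0 : Fin 2 → ℝ) (fun _ => ρ) ∧
          (fun i => sg (p i) * v i + t i) ∈ B}) := measure_mono hU
      _ ≤ volume Z + volume (⋃ p : Fin 2 → Bool,
        ⋃ t ∈ Dp p, {v : Fin 2 → ℝ | v ∈ Set.Icc (0 : Fin 2 → ℝ) (fun _ => ρ) ∧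
          (fun i => sg (p i) * v i + t i) ∈ B}) := measure_union_le _ _
      _ ≤ 0 + ∑ p : Fin 2 → Bool, volume (
        ⋃ t ∈ Dp p, {v : Fin 2 → ℝ | v ∈ Set.Icc (0 : Fin 2 → ℝ) (fun _ => ρ) ∧
          (fun i => sg (p i) * v i + t i) ∈ B}) := by
          rw [hZ]
          exact add_le_add le_rfl (measure_iUnion_fintype_le volume _)
      _ ≤ 0 + ∑ p : Fin 2 → Bool, volume B :=
          add_le_add le_rfl (Finset.sum_le_sum fun p _ =>
            meas_part p (Dp p) (hDc p) B hB.measurableSet ρ (hsep p))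
      _ = 4 * volume B := by
          rw [zero_add, Finset.sum_const, Finset.card_univ, Fintype.card_fun, Fintype.card_bool,
            Fintype.card_fin, nsmul_eq_mul]
          norm_num
  rw [Real.volume_Icc_pi, Fin.prod_univ_two] at hm
  have hm2 : ENNReal.ofReal (ρ * ρ) ≤ ENNReal.ofReal (4 * T) := by
    rw [ENNReal.ofReal_mul hρ0, ENNReal.ofReal_mul (by norm_num)]
    have h4 : ENNReal.ofReal 4 = 4 := by norm_num
    rw [h4]
    refine le_trans ?_ (le_trans hm (mul_le_mul_right hvB.le 4))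
    simp
  have hm3 : ρ * ρ ≤ 4 * T := (ENNReal.ofReal_le_ofReal_iff (by linarith)).1 hm2
  have hss : √T * √T = T := Real.mul_self_sqrt (by linarith)
  have : ρ * ρ = 4 * (√T * √T) + 4 * √T + 1 := by
    rw [hρ]
    ring
  rw [this, hss] at hm3
  linarith

end Pool.HMF
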